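import Pool.Agent.Lib.MP_1d78e3_lc.Final

set_option autoImplicit false

namespace Pool.Agent.Results.MP_1d78e3_lc.TreeLikeUndecidable

open Pool.Agent.Lib.MP_1d78e3_lc

/-- No algorithm decides, for all formulas of the F,G-fragment of PCTL, whether the formula has a
tree-like model.  An algorithm is a partial recursive function which, on the Goedel number of every
formula with probability constants in `[0,1]`, halts and answers correctly. -/
theorem result : ¬ ∃ f : ℕ →. Bool, Partrec f ∧
    ∀ φ : Formula, φ.Valid → ∃ b ∈ f φ.code, (b = true ↔ HasTreeLikeModel φ) :=
  undecidable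

end Pool.Agent.Results.MP_1d78e3_lc.TreeLikeUndecidable
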